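import Pool.Agent.W533.LP.Stm
import Pool.Agent.W533.LP.Stm3

/-!
# Project LP (helper533), part LP-GT: `G - T` is tight on the scale `n^(1/3)`
-/

set_option autoImplicit false

namespace Pool.Agent.W56.LP.GT

open MeasureTheory ProbabilityTheory
open Pool.Agent.W533.LP

/-! ### elementary facts -/

lemma dd_pos {q : ℝ} (h0 : 0 < q) (h1 : q < 1) : 0 < dd q := by
  unfold dd
  have hs0 : 0 < Real.sqrt q := Real.sqrt_pos.2 h0
  have hs1 : Real.sqrt q < 1 := by
    rw [Real.sqrt_lt' one_pos]; simpa using h1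
  have hsq : Real.sqrt q * Real.sqrt q = q := Real.mul_self_sqrt h0.le
  have h2 : q < Real.sqrt q := by nlinarith
  have : 0 < min (Real.sqrt q - q) (1 - Real.sqrt q) := lt_min (by linarith) (by linarith)
  positivity

lemma params {q a : ℝ} (h0 : 0 < q) (h1 : q < 1) (ha : |a - Real.sqrt q| ≤ dd q) :
    q < a ∧ a < 1 ∧ (1 - Real.sqrt q) / 2 ≤ 1 - a ∧ Real.sqrt q / 2 ≤ a ∧ 0 < Real.sqrt q ∧
      Real.sqrt q < 1 := by
  have hs0 : 0 < Real.sqrt q := Real.sqrt_pos.2 h0
  have hs1 : Real.sqrt q < 1 := by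
    rw [Real.sqrt_lt' one_pos]; simpa using h1
  have hsq : Real.sqrt q * Real.sqrt q = q := Real.mul_self_sqrt h0.le
  have h2 : q < Real.sqrt q := by nlinarith
  have h3 : dd q ≤ (Real.sqrt q - q) / 4 := by
    unfold dd
    have := min_le_left (Real.sqrt q - q) (1 - Real.sqrt q)
    linarith
  have h4 : dd q ≤ (1 - Real.sqrt q) / 4 := by
    unfold dd
    have := min_le_right (Real.sqrt q - q) (1 - Real.sqrt q)
    linarith
  obtain ⟨h5, h6⟩ := abs_le.1 ha
  refine ⟨by linarith, by linarith, by linarith, by linarith, hs0, hs1⟩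

lemma geoFam_comp {Ω ι ι' : Type} [MeasurableSpace Ω] {μ : Measure Ω} {p : ι → ℝ}
    {X : ι → Ω → ℕ} (h : GeoFam μ p X) (g : ι' → ι) (hg : Function.Injective g) :
    GeoFam μ (fun i => p (g i)) (fun i => X (g i)) where
  prob := h.prob
  pos i := h.pos (g i)
  meas i := h.meas (g i)
  indep := h.indep.precomp hg
  law i k := h.law (g i) k

lemma inj_elim {α β γ : Type} (f : α → γ) (g : β → γ) (hf : Function.Injective f)
    (hg : Function.Injective g) (hfg : ∀ a b, f a ≠ g b) :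
    Function.Injective (fun v : α ⊕ β => Sum.elim f g v) :=
  Function.Injective.sumElim hf hg hfg

/-- index map of the block of the increments -/
def blk (w m n : ℕ) (hw : w ≤ m) : Fin w ⊕ Fin w → Fin m ⊕ Fin n ⊕ ℕ :=
  Sum.elim (fun i : Fin w => Sum.inr (Sum.inr ((i : ℕ) + 1)))
    (fun i : Fin w => Sum.inl ⟨m - 1 - (i : ℕ), by have := i.2; omega⟩)

lemma blk_inj (w m n : ℕ) (hw : w ≤ m) : Function.Injective (blk w m n hw) := by
  refine Function.Injective.sumElim ?_ ?_ ?_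
  · intro u v h
    exact Fin.ext (Nat.succ.inj (Sum.inr.inj (Sum.inr.inj h)))
  · intro u v h
    have h' := Fin.mk.inj (Sum.inl.inj h)
    have hu := u.2
    have hv := v.2
    exact Fin.ext (by omega)
  · intro u v h
    simp at h

/-- the rotation of the index set -/
def ri (m n : ℕ) (v : ℕ × ℕ) : ℕ × ℕ :=
  if v.1 < m ∧ v.2 < n then (m - 1 - v.1, n - 1 - v.2) else v

lemma ri_ri (m n : ℕ) (v : ℕ × ℕ) : ri m n (ri m n v) = v := by
  obtain ⟨i, j⟩ := v
  unfold ri
  by_cases h : i < m ∧ j < n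
  · simp only [h, and_self, if_true]
    rw [if_pos ⟨by omega, by omega⟩]
    ext
    · simp only; omega
    · simp only; omega
  · simp only [h, if_false]

lemma ri_inj (m n : ℕ) : Function.Injective (ri m n) :=
  (Function.LeftInverse.injective (ri_ri m n))

lemma rot_eq (m n : ℕ) (W : ℕ → ℕ → ℕ) (i j : ℕ) :
    rot m n W i j = W (ri m n (i, j)).1 (ri m n (i, j)).2 := by
  unfold rot ri
  by_cases h : i < m ∧ j < n
  · simp only [h, and_self, if_true]
  · simp only [h, if_false]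

lemma rot_rot (m n : ℕ) (W : ℕ → ℕ → ℕ) : rot m n (rot m n W) = W := by
  funext i j
  rw [rot_eq, rot_eq]
  have := ri_ri m n (i, j)
  simp only [Prod.mk.eta]
  rw [this]

lemma sh_zero (W : ℕ → ℕ → ℕ) : sh 0 0 W = W := by
  funext i j
  simp [sh]

lemma gr_eq (hA : AMeas) {Ω : Type} (I J : ℕ → Ω → ℕ) (W : ℕ → ℕ → Ω → ℕ) (n i : ℕ) (ω : Ω) :
    Gr I J W (i + 1) n ω = Gr I J W i n ω + Ninc I J W n i ω := by
  unfold Ninc
  have : Gr I J W i n ω ≤ Gr I J W (i + 1) n ω :=
    (hA.2.2 (fun i => I i ω) (fun j => J j ω) (fun i j => W i j ω) i n).1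
  omega

lemma gr_tele (hA : AMeas) {Ω : Type} (I J : ℕ → Ω → ℕ) (W : ℕ → ℕ → Ω → ℕ) (m n : ℕ) (ω : Ω)
    (z : ℕ) (hz : z ≤ m) : Gr I J W m n ω = Gr I J W (m - z) n ω +
      ∑ i ∈ Finset.range z, Ninc I J W n (m - 1 - i) ω := by
  induction z with
  | zero => simp
  | succ z ih =>
    rw [ih (by omega), Finset.sum_range_succ]
    have e : m - z = (m - (z + 1)) + 1 := by omega
    have e2 : m - 1 - z = m - (z + 1) := by omega
    rw [e, gr_eq hA, e2]
    ring

lemma sum_fin_ite (w z : ℕ) (hz : z ≤ w) (f : ℕ → ℝ) :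
    ∑ i : Fin w, (if (i : ℕ) < z then f i else 0) = ∑ i ∈ Finset.range z, f i := by
  rw [Fin.sum_univ_eq_sum_range (fun i => if i < z then f i else 0) w, ← Finset.sum_filter]
  congr 1
  ext i
  simp only [Finset.mem_filter, Finset.mem_range]
  omega

/-! ### the deterministic inequality -/

lemma determ (hA : AMeas) (hExit : DExit) (hRot : DRot) (hSand : DSand) {Ω : Type}
    (I J : ℕ → Ω → ℕ) (W : ℕ → ℕ → Ω → ℕ) (X : ℕ → Ω → ℕ) (m n w : ℕ) (ω : Ω) (x : ℝ)
    (hm : 1 ≤ m) (hn : 1 ≤ n) (hw : 1 ≤ w)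
    (hF : ¬ (Gr zr J W m n ω < Gr I zr W m n ω))
    (hx : (T (rot m n (fun i j => W i j ω)) m n : ℝ) + x ≤
      G (cut (fun i => X i ω) w) zero (rot m n (fun i j => W i j ω)) m n) :
    ∃ z : ℕ, z < w ∧ z < m ∧ x ≤ (X 0 ω : ℝ) + ∑ i ∈ Finset.range z,
      ((X (i + 1) ω : ℝ) - (Ninc I J W n (m - 1 - i) ω : ℝ)) := by
  obtain ⟨z, hzm, hzw, hz⟩ := (hExit (fun i => X i ω) zero (rot m n (fun i j => W i j ω)) m n hn).2 w
    hw hm
  refine ⟨z, hzw, hzm, ?_⟩
  have h1 : T (fun i j => W i j ω) (m - z) n =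
      T (sh z 0 (rot m n (fun i j => W i j ω))) (m - z) n := by
    have := hRot (rot m n (fun i j => W i j ω)) m n z 0 hzm.le (Nat.zero_le _)
    rw [rot_rot] at this
    simpa using this
  have h2 : T (fun i j => W i j ω) m n = T (rot m n (fun i j => W i j ω)) m n := by
    have := hRot (rot m n (fun i j => W i j ω)) m n 0 0 (Nat.zero_le _) (Nat.zero_le _)
    rw [rot_rot, sh_zero] at this
    simpa using this
  have h3 := (hSand (fun i => I i ω) (fun j => J j ω) (fun i j => W i j ω) m n).2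
    (by
      have : Gr I zr W m n ω ≤ Gr zr J W m n ω := not_lt.1 hF
      exact this) z hzm.le
  have h4 := gr_tele hA I J W m n ω z hzm.le
  have h5 : ps (fun i => X i ω) (z + 1) = X 0 ω + ∑ i ∈ Finset.range z, X (i + 1) ω := by
    unfold ps
    rw [Finset.sum_range_succ']
    ring
  rw [← h1, h5] at hz
  rw [← h2] at hx
  have h3' : Gr I J W m n ω + T (fun i j => W i j ω) (m - z) n ≤
      T (fun i j => W i j ω) m n + Gr I J W (m - z) n ω := h3
  have h6 : ((G (cut (fun i => X i ω) w) zero (rot m n (fun i j => W i j ω)) m n : ℕ) : ℝ) ≤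
      ((X 0 ω + ∑ i ∈ Finset.range z, X (i + 1) ω + T (fun i j => W i j ω) (m - z) n : ℕ) : ℝ) := by
    exact_mod_cast hz
  have h7 : ((Gr I J W m n ω + T (fun i j => W i j ω) (m - z) n : ℕ) : ℝ) ≤
      ((T (fun i j => W i j ω) m n + Gr I J W (m - z) n ω : ℕ) : ℝ) := by exact_mod_cast h3'
  have h8 : ((Gr I J W m n ω : ℕ) : ℝ) = ((Gr I J W (m - z) n ω +
      ∑ i ∈ Finset.range z, Ninc I J W n (m - 1 - i) ω : ℕ) : ℝ) := by exact_mod_cast h4
  push_cast at h6 h7 h8
  rw [Finset.sum_sub_distrib]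
  linarith

/-! ### transfer of the law -/

/-- the event, as a set of weights -/
def EvS (m n w : ℕ) (x : ℝ) : Set (ℕ ⊕ (ℕ × ℕ) → ℕ) :=
  {z | (T (fun i j => z (Sum.inr (i, j))) m n : ℝ) + x ≤
    G (cut (fun i => z (Sum.inl i)) w) zero (fun i j => z (Sum.inr (i, j))) m n}

lemma evS_meas (hA : AMeas) (m n w : ℕ) (x : ℝ) : MeasurableSet (EvS m n w x) := by
  have hG := hA.1 m n
  have h1 : Measurable (fun z : ℕ ⊕ (ℕ × ℕ) → ℕ =>
      G (cut (fun i => z (Sum.inl i)) w) zero (fun i j => z (Sum.inr (i, j))) m n) := by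
    refine hG.comp (g := fun z : (ℕ → ℕ) × (ℕ → ℕ) × (ℕ → ℕ → ℕ) => G z.1 z.2.1 z.2.2 m n)
      (f := fun z : ℕ ⊕ (ℕ × ℕ) → ℕ => (cut (fun i => z (Sum.inl i)) w, zero,
        fun i j => z (Sum.inr (i, j)))) ?_
    refine Measurable.prodMk ?_ (Measurable.prodMk measurable_const ?_)
    · refine measurable_pi_lambda _ fun i => ?_
      unfold cut
      by_cases h : i < w
      · simp only [h, if_true]
        exact measurable_pi_apply _
      · simp only [h, if_false]
        exact measurable_const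
    · exact measurable_pi_lambda _ fun i => measurable_pi_lambda _ fun j => measurable_pi_apply _
  have h2 : Measurable (fun z : ℕ ⊕ (ℕ × ℕ) → ℕ =>
      T (fun i j => z (Sum.inr (i, j))) m n) := by
    unfold T
    refine hG.comp (g := fun z : (ℕ → ℕ) × (ℕ → ℕ) × (ℕ → ℕ → ℕ) => G z.1 z.2.1 z.2.2 m n)
      (f := fun z : ℕ ⊕ (ℕ × ℕ) → ℕ => (zero, zero,
        fun i j => z (Sum.inr (i, j)))) ?_
    refine Measurable.prodMk measurable_const (Measurable.prodMk measurable_const ?_)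
    exact measurable_pi_lambda _ fun i => measurable_pi_lambda _ fun j => measurable_pi_apply _
  have h3 : Measurable (fun z : ℕ ⊕ (ℕ × ℕ) → ℕ =>
      (T (fun i j => z (Sum.inr (i, j))) m n : ℝ) + x) :=
    (measurable_from_top.comp h2).add_const x
  have h4 : Measurable (fun z : ℕ ⊕ (ℕ × ℕ) → ℕ =>
      ((G (cut (fun i => z (Sum.inl i)) w) zero (fun i j => z (Sum.inr (i, j))) m n : ℕ) : ℝ)) :=
    measurable_from_top.comp h1
  exact measurableSet_le h3 h4

lemma transfer (hPT : PTransfer) {Ω Ω' ι : Type} [MeasurableSpace Ω] [MeasurableSpace Ω']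
    [Countable ι] (μ : Measure Ω) (μ' : Measure Ω') (p : ι → ℝ) (X : ι → Ω → ℕ) (Y : ι → Ω' → ℕ)
    (hX : GeoFam μ p X) (hY : GeoFam μ' p Y) (S : Set (ι → ℕ)) (hS : MeasurableSet S) :
    μ.real {ω | (fun i => X i ω) ∈ S} = μ'.real {ω | (fun i => Y i ω) ∈ S} := by
  have h := hPT μ μ' p X Y hX hY
  have hmX : Measurable (fun ω i => X i ω) := measurable_pi_lambda _ fun i => hX.meas i
  have hmY : Measurable (fun ω i => Y i ω) := measurable_pi_lambda _ fun i => hY.meas i
  have h1 : (Measure.map (fun ω i => X i ω) μ) S = (Measure.map (fun ω i => Y i ω) μ') S := by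
    rw [h]
  rw [Measure.map_apply hmX hS, Measure.map_apply hmY hS] at h1
  unfold Measure.real
  have e1 : {ω | (fun i => X i ω) ∈ S} = (fun ω i => X i ω) ⁻¹' S := rfl
  have e2 : {ω | (fun i => Y i ω) ∈ S} = (fun ω i => Y i ω) ⁻¹' S := rfl
  rw [e1, e2, h1]

/-! ### the one-sided bound -/

lemma mean_diff {a a' η : ℝ} (hη : 0 < η) (ha : η / 2 ≤ 1 - a) (ha' : η / 2 ≤ 1 - a') :
    mean a - mean a' ≤ |a - a'| * (4 / η ^ 2) := by
  unfold mean
  have h1 : 0 < 1 - a := by linarith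
  have h2 : 0 < 1 - a' := by linarith
  have e : a / (1 - a) - a' / (1 - a') = (a - a') * (1 / ((1 - a) * (1 - a'))) := by
    field_simp
    ring
  rw [e]
  have h3 : (η / 2) * (η / 2) ≤ (1 - a) * (1 - a') := by
    apply mul_le_mul ha ha' (by positivity) h1.le
  have h4 : 1 / ((1 - a) * (1 - a')) ≤ 4 / η ^ 2 := by
    have h5 : (4 : ℝ) / η ^ 2 = 1 / ((η / 2) * (η / 2)) := by field_simp; norm_num
    rw [h5]
    exact one_div_le_one_div_of_le (by positivity) h3
  have h5 : 0 ≤ 1 / ((1 - a) * (1 - a')) := by positivity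
  calc (a - a') * (1 / ((1 - a) * (1 - a'))) ≤ |a - a'| * (1 / ((1 - a) * (1 - a'))) :=
        mul_le_mul_of_nonneg_right (le_abs_self _) h5
    _ ≤ _ := mul_le_mul_of_nonneg_left h4 (abs_nonneg _)

lemma vari_le {a η : ℝ} (hη : 0 < η) (ha0 : a ≤ 1) (ha : η / 2 ≤ 1 - a) :
    vari a ≤ 4 / η ^ 2 := by
  unfold vari
  have h1 : 0 < 1 - a := by linarith
  rw [div_le_div_iff₀ (by positivity) (by positivity)]
  have h2 : (η / 2) ^ 2 ≤ (1 - a) ^ 2 := pow_le_pow_left₀ (by positivity) ha 2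
  have h3 : a * η ^ 2 ≤ 1 * η ^ 2 := mul_le_mul_of_nonneg_right ha0 (by positivity)
  nlinarith

lemma mean_le {a η : ℝ} (hη : 0 < η) (ha0 : a ≤ 1) (ha : η / 2 ≤ 1 - a) :
    mean a ≤ 2 / η := by
  unfold mean
  have h1 : 0 < 1 - a := by linarith
  rw [div_le_div_iff₀ h1 hη]
  nlinarith

/-- tail of one geometric variable -/
lemma tail_one (hMom : PMom) {Ω : Type} [MeasurableSpace Ω] (μ : Measure Ω) (a : ℝ) (ha : a < 1)
    (X : Ω → ℕ) (hX : GeoFam μ (fun _ : Fin 1 => a) (fun _ => X)) (y : ℝ) (hy : 0 < y) :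
    μ.real {ω | y ≤ (X ω : ℝ)} ≤ mean a / y := by
  obtain ⟨C, hC, h⟩ := hMom a ha
  obtain ⟨h1, h2, -, -⟩ := h μ a 1 (fun _ => X) le_rfl hX
  haveI := hX.prob
  simp only [Finset.univ_unique, Fin.default_eq_zero, Fin.isValue, Finset.sum_const,
    Finset.card_singleton, one_smul, Nat.cast_one, one_mul] at h1 h2
  have hint : Integrable (fun ω => (X ω : ℝ)) μ := h1.integrable (by norm_num)
  have h3 := mul_meas_ge_le_integral_of_nonneg (μ := μ) (f := fun ω => (X ω : ℝ))
    (Filter.Eventually.of_forall fun ω => Nat.cast_nonneg _) hint y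
  rw [h2] at h3
  rw [le_div_iff₀ hy, mul_comm]
  exact h3

theorem oneSided (hPT : PTransfer) (hASys : ASys) (hAOps : AOps) (hA : AMeas) (hExit : DExit)
    (hRot : DRot) (hSand : DSand) (hBurke : PBurke) (hSW : PSW) (hKol : PKol) (hMom : PMom)
    (q : ℝ) (hq0 : 0 < q) (hq1 : q < 1) (K : ℝ) (hK : 1 ≤ K) : ∃ C : ℝ, 1 ≤ C ∧
    ∀ {Ω : Type} [MeasurableSpace Ω] (μ : Measure Ω) (a b : ℝ) (I J : ℕ → Ω → ℕ)
    (W : ℕ → ℕ → Ω → ℕ) (m n w : ℕ), 1 ≤ b → C * b ≤ (n : ℝ) ^ (1 / 3 : ℝ) → 1 ≤ n → n ≤ 2 * m →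
    m ≤ 2 * n → |a - Real.sqrt q| * (n : ℝ) ^ (1 / 3 : ℝ) ≤ K * b →
    |(m : ℝ) - n| ≤ K * b * (n : ℝ) ^ (2 / 3 : ℝ) → 1 ≤ w → (w : ℝ) ≤ K * b * (n : ℝ) ^ (2 / 3 : ℝ) →
    Sys0 μ q a I J W →
    μ.real {ω | (Tr W m n ω : ℝ) + C * b ^ 2 * (n : ℝ) ^ (1 / 3 : ℝ) ≤
      G (cut (fun i => I i ω) w) zero (fun i j => W i j ω) m n} ≤ C / b ^ 3 := by
  obtain ⟨CS, hCS, hSW⟩ := hSW q hq0 hq1
  have hdd := dd_pos hq0 hq1
  set t := Real.sqrt q with ht
  have ht0 : 0 < t := Real.sqrt_pos.2 hq0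
  have ht1 : t < 1 := by
    rw [ht, Real.sqrt_lt' one_pos]; simpa using hq1
  set η := 1 - t with hη
  have hη0 : 0 < η := by rw [hη]; linarith
  set C2 : ℝ := CS * K with hC2
  have hC20 : 0 < C2 := by positivity
  have hC21 : 1 ≤ C2 := by
    rw [hC2]
    nlinarith
  -- the constant
  set C : ℝ := 2 * K + (C2 + K) / dd q + 12 * K * (K + C2) / η ^ 2 + CS + 6 / η + 72 * K / η ^ 2 + 1
    with hC
  have p1 : 0 ≤ (C2 + K) / dd q := by positivity
  have p2 : 0 ≤ 12 * K * (K + C2) / η ^ 2 := by positivity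
  have p3 : 0 ≤ 6 / η := by positivity
  have p4 : 0 ≤ 72 * K / η ^ 2 := by positivity
  have hC1 : 1 ≤ C := by rw [hC]; linarith
  refine ⟨C, hC1, ?_⟩
  intro Ω _ μ a b I J W m n w hb hCb hn hnm hmn ha hmn' hw hw' hsys
  set N : ℝ := (n : ℝ) ^ (1 / 3 : ℝ) with hN
  have hn0 : (0 : ℝ) < n := by exact_mod_cast hn
  have hN0 : 0 < N := Real.rpow_pos_of_pos hn0 _
  have hN3 : N ^ 3 = n := by
    rw [hN, ← Real.rpow_natCast, ← Real.rpow_mul hn0.le]
    norm_num
  have hN2 : (n : ℝ) ^ (2 / 3 : ℝ) = N ^ 2 := by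
    rw [hN, ← Real.rpow_natCast, ← Real.rpow_mul hn0.le]
    norm_num
  rw [hN2] at hmn' hw'
  have hb0 : 0 < b := by linarith
  have hCbN : C * b ≤ N := hCb
  have hm : 1 ≤ m := by omega
  have hbN : b / N ≤ 1 / C := by
    rw [div_le_div_iff₀ hN0 (by linarith)]
    linarith
  have hinvC : (C2 + K) * (1 / C) ≤ dd q := by
    rw [mul_one_div, div_le_iff₀ (by linarith)]
    have h1 : (C2 + K) / dd q ≤ C := by rw [hC]; linarith
    rw [div_le_iff₀ hdd] at h1
    linarith
  -- parameter of the comparison system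
  set d : ℝ := C2 * (b / N) with hd
  have hd0 : 0 < d := by positivity
  have hdK : K * (b / N) ≤ dd q := by
    have h1 : K * (b / N) ≤ K * (1 / C) := mul_le_mul_of_nonneg_left hbN (by linarith)
    have h2 : 0 ≤ C2 * (1 / C) := by positivity
    have h3 : (C2 + K) * (1 / C) = C2 * (1 / C) + K * (1 / C) := by ring
    linarith
  have hddd : d ≤ dd q := by
    have h1 : C2 * (b / N) ≤ C2 * (1 / C) := mul_le_mul_of_nonneg_left hbN hC20.le
    have h2 : 0 ≤ K * (1 / C) := by positivity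
    have h3 : (C2 + K) * (1 / C) = C2 * (1 / C) + K * (1 / C) := by ring
    rw [hd]
    linarith
  have haK : |a - t| ≤ K * (b / N) := by
    rw [← mul_div_assoc, le_div_iff₀ hN0]
    exact ha
  obtain ⟨hqa, ha1, hηa, -, -, -⟩ := params hq0 hq1 (haK.trans hdK)
  have hal : |(t - d) - t| ≤ dd q := by
    have : t - d - t = -d := by ring
    rw [this, abs_neg, abs_of_pos hd0]
    exact hddd
  obtain ⟨hqal, hal1, hηal, -, -, -⟩ := params hq0 hq1 hal
  -- the comparison system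
  obtain ⟨Ω', _, μ', I', J', W', X, hsys'⟩ := hASys (κ := ℕ) q (t - d) (fun _ => a) hq0 hqal hal1
    (fun _ => ⟨by linarith, ha1⟩)
  have hsys0' := ((hAOps μ' q).1 (t - d) I' J' W' (fun _ => a) X hsys').1
  haveI : IsProbabilityMeasure μ' := hsys'.prob
  haveI : IsProbabilityMeasure μ := hsys.prob
  -- transfer
  set x : ℝ := C * b ^ 2 * N with hx
  have hx0 : 0 < x := by positivity
  have htr : μ.real {ω | (Tr W m n ω : ℝ) + x ≤
      G (cut (fun i => I i ω) w) zero (fun i j => W i j ω) m n} =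
      μ'.real {ω | (T (rot m n (fun i j => W' i j ω)) m n : ℝ) + x ≤
      G (cut (fun i => X i ω) w) zero (rot m n (fun i j => W' i j ω)) m n} := by
    have g1 := geoFam_comp hsys
      (fun v : ℕ ⊕ (ℕ × ℕ) => Sum.elim (fun i => (Sum.inl i : ℕ ⊕ ℕ ⊕ (ℕ × ℕ) ⊕ Empty))
        (fun v => Sum.inr (Sum.inr (Sum.inl v))) v) (inj_elim _ _
        (fun u v h => by simpa using h) (fun u v h => by simpa using h) (fun u v h => by simp at h))
    have g2 := geoFam_comp hsys'
      (fun v : ℕ ⊕ (ℕ × ℕ) => Sum.elim (fun i => (Sum.inr (Sum.inr (Sum.inr i)) :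
          ℕ ⊕ ℕ ⊕ (ℕ × ℕ) ⊕ ℕ))
        (fun v => Sum.inr (Sum.inr (Sum.inl (ri m n v)))) v) (inj_elim _ _
        (fun u v h => by simpa using h)
        (fun u v h => ri_inj m n (Sum.inl.inj (Sum.inr.inj (Sum.inr.inj h))))
        (fun u v h => by simp at h))
    have e1 : (fun v : ℕ ⊕ (ℕ × ℕ) => par q a (q / a) (fun _ : Empty => (0 : ℝ))
        (Sum.elim (fun i => (Sum.inl i : ℕ ⊕ ℕ ⊕ (ℕ × ℕ) ⊕ Empty))
        (fun v => Sum.inr (Sum.inr (Sum.inl v))) v)) = Sum.elim (fun _ => a) (fun _ => q) := by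
      funext v
      rcases v with v | v <;> rfl
    have e2 : (fun v : ℕ ⊕ (ℕ × ℕ) => par q (t - d) (q / (t - d)) (fun _ : ℕ => a)
        (Sum.elim (fun i => (Sum.inr (Sum.inr (Sum.inr i)) : ℕ ⊕ ℕ ⊕ (ℕ × ℕ) ⊕ ℕ))
        (fun v => Sum.inr (Sum.inr (Sum.inl (ri m n v)))) v)) =
        Sum.elim (fun _ => a) (fun _ => q) := by
      funext v
      rcases v with v | v <;> rfl
    rw [e1] at g1
    rw [e2] at g2
    have h := transfer hPT μ μ' _ _ _ g1 g2 (EvS m n w x) (evS_meas hA m n w x)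
    have s1 : {ω | (fun i => fam I J W (fun _ _ => 0)
        (Sum.elim (fun i => (Sum.inl i : ℕ ⊕ ℕ ⊕ (ℕ × ℕ) ⊕ Empty))
        (fun v => Sum.inr (Sum.inr (Sum.inl v))) i) ω) ∈ EvS m n w x} =
        {ω | (Tr W m n ω : ℝ) + x ≤
          G (cut (fun i => I i ω) w) zero (fun i j => W i j ω) m n} := by
      ext ω
      rfl
    have s2 : {ω | (fun i => fam I' J' W' X
        (Sum.elim (fun i => (Sum.inr (Sum.inr (Sum.inr i)) : ℕ ⊕ ℕ ⊕ (ℕ × ℕ) ⊕ ℕ))
        (fun v => Sum.inr (Sum.inr (Sum.inl (ri m n v)))) i) ω) ∈ EvS m n w x} =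
        {ω | (T (rot m n (fun i j => W' i j ω)) m n : ℝ) + x ≤
          G (cut (fun i => X i ω) w) zero (rot m n (fun i j => W' i j ω)) m n} := by
      ext ω
      have : rot m n (fun i j => W' i j ω) = fun i j => W' (ri m n (i, j)).1 (ri m n (i, j)).2 ω := by
        funext i j
        rw [rot_eq]
      rw [Set.mem_ofPred_eq, Set.mem_ofPred_eq, this]
      rfl
    rw [s1, s2] at h
    exact h
  rw [htr]
  -- the three bad events
  have hwm : w ≤ m := by
    have h1 : (w : ℝ) ≤ m := by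
      have h2 : K * b * N ^ 2 ≤ n / 2 := by
        rw [← hN3]
        have h3 : 2 * K * b ≤ N := by
          refine le_trans ?_ hCbN
          have h4 : 2 * K ≤ C := by rw [hC]; linarith
          exact mul_le_mul_of_nonneg_right h4 hb0.le
        have h4 := mul_le_mul_of_nonneg_right h3 (by positivity : 0 ≤ N ^ 2)
        have h5 : N * N ^ 2 = N ^ 3 := by ring
        linarith
      have h6 : (n : ℝ) ≤ 2 * m := by exact_mod_cast hnm
      linarith
    exact_mod_cast h1
  have hB := hBurke μ' q (t - d) I' J' W' (fun _ => a) X hq0 hqal hal1 hsys' m n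
  have hKfam : GeoFam μ' (Sum.elim (fun _ : Fin w => a) (fun _ : Fin w => (t - d)))
      (Sum.elim (fun i : Fin w => X (i + 1)) (fun i : Fin w => Ninc I' J' W' n (m - 1 - i))) := by
    have g := geoFam_comp hB (blk w m n hwm) (blk_inj w m n hwm)
    convert g using 1
    · funext v
      rcases v with v | v <;> rfl
    · funext v
      rcases v with v | v <;> rfl
  have hX0 : GeoFam μ' (fun _ : Fin 1 => a) (fun _ => X 0) := by
    have g := geoFam_comp hsys' (fun _ : Fin 1 => (Sum.inr (Sum.inr (Sum.inr 0)) :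
      ℕ ⊕ ℕ ⊕ (ℕ × ℕ) ⊕ ℕ)) (Function.injective_of_subsingleton _)
    exact g
  set B1 : Set Ω' := {ω | Gr zr J' W' m n ω < Gr I' zr W' m n ω} with hB1
  set B2 : Set Ω' := {ω | x / 3 ≤ (X 0 ω : ℝ)} with hB2
  set B3 : Set Ω' := {ω | ∃ z : ℕ, z ≤ w ∧ z * (mean a - mean (t - d)) + x / 3 ≤
    ∑ i : Fin w, if (i : ℕ) < z then ((X (i + 1) ω : ℝ) - (Ninc I' J' W' n (m - 1 - i) ω : ℝ))
      else 0} with hB3
  have hsub : {ω | (T (rot m n (fun i j => W' i j ω)) m n : ℝ) + x ≤
      G (cut (fun i => X i ω) w) zero (rot m n (fun i j => W' i j ω)) m n} ⊆ B1 ∪ (B2 ∪ B3) := by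
    intro ω hω
    rw [Set.mem_ofPred_eq] at hω
    by_cases h1 : ω ∈ B1
    · exact Or.inl h1
    right
    obtain ⟨z, hzw, hzm, hz⟩ := determ hA hExit hRot hSand I' J' W' X m n w ω x hm hn hw h1 hω
    by_cases h2 : x / 3 ≤ (X 0 ω : ℝ)
    · exact Or.inl h2
    right
    refine ⟨z, hzw.le, ?_⟩
    rw [sum_fin_ite w z hzw.le (fun i => (X (i + 1) ω : ℝ) - (Ninc I' J' W' n (m - 1 - i) ω : ℝ))]
    push Not at h2
    have hdrift : (z : ℝ) * (mean a - mean (t - d)) ≤ x / 3 := by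
      have h3 := mean_diff hη0 hηa hηal
      have h4 : |a - (t - d)| ≤ (K + C2) * (b / N) := by
        have h5 : a - (t - d) = (a - t) + d := by ring
        rw [h5]
        have h6 := abs_add_le (a - t) d
        rw [abs_of_pos hd0] at h6
        have h7 : (K + C2) * (b / N) = K * (b / N) + d := by rw [hd]; ring
        linarith
      have h8 : (z : ℝ) ≤ K * b * N ^ 2 := by
        have : (z : ℝ) ≤ w := by exact_mod_cast hzw.le
        linarith
      have h9 : mean a - mean (t - d) ≤ (K + C2) * (b / N) * (4 / η ^ 2) :=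
        h3.trans (mul_le_mul_of_nonneg_right h4 (by positivity))
      calc (z : ℝ) * (mean a - mean (t - d)) ≤ z * ((K + C2) * (b / N) * (4 / η ^ 2)) :=
            mul_le_mul_of_nonneg_left h9 (Nat.cast_nonneg _)
        _ ≤ (K * b * N ^ 2) * ((K + C2) * (b / N) * (4 / η ^ 2)) :=
            mul_le_mul_of_nonneg_right h8 (by positivity)
        _ = (12 * K * (K + C2) / η ^ 2) * (b ^ 2 * N) / 3 := by field_simp; ring
        _ ≤ C * (b ^ 2 * N) / 3 := by
            have h10 : 12 * K * (K + C2) / η ^ 2 ≤ C := by rw [hC]; linarith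
            have h11 := mul_le_mul_of_nonneg_right h10 (by positivity : 0 ≤ b ^ 2 * N)
            linarith
        _ = x / 3 := by rw [hx]; ring
    linarith
  have hP1 : μ'.real B1 ≤ CS / b ^ 3 := by
    have h1 := (hSW μ' d I' J' W' m n hd0 hddd hn hnm hmn (by
      have h2 : (n : ℝ) * d = C2 * b * N ^ 2 := by
        rw [hd, ← hN3]; field_simp
      rw [h2, hC2]
      calc CS * |(m : ℝ) - n| ≤ CS * (K * b * N ^ 2) := mul_le_mul_of_nonneg_left hmn' (by linarith)
        _ = _ := by ring)).2 hsys0'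
    refine h1.trans ?_
    have h2 : d ^ 3 * n = C2 ^ 3 * b ^ 3 := by
      rw [hd, ← hN3]; field_simp
    rw [h2]
    have h3 : b ^ 3 ≤ C2 ^ 3 * b ^ 3 := by
      have : 1 ≤ C2 ^ 3 := one_le_pow₀ hC21
      have h4 := mul_le_mul_of_nonneg_right this (by positivity : 0 ≤ b ^ 3)
      linarith
    exact div_le_div_of_nonneg_left (by linarith) (by positivity) h3
  have hP2 : μ'.real B2 ≤ (6 / η) / b ^ 3 := by
    have h1 := tail_one hMom μ' a ha1 (X 0) hX0 (x / 3) (by positivity)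
    refine h1.trans ?_
    have h2 := mean_le hη0 ha1.le hηa
    have h3 : b ^ 3 ≤ x := by
      rw [hx]
      have h4 : b ≤ C * N := by
        have h5 : b ≤ C * b := by nlinarith
        have h6 : N ≤ C * N := by nlinarith
        linarith
      calc b ^ 3 = b ^ 2 * b := by ring
        _ ≤ b ^ 2 * (C * N) := mul_le_mul_of_nonneg_left h4 (by positivity)
        _ = _ := by ring
    rw [div_div_eq_mul_div, div_le_div_iff₀ hx0 (by positivity)]
    have h5 : 0 ≤ 2 / η := by positivity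
    calc mean a * 3 * b ^ 3 ≤ 2 / η * 3 * b ^ 3 := by
          have := mul_le_mul_of_nonneg_right h2 (by positivity : 0 ≤ 3 * b ^ 3)
          linarith
      _ ≤ 2 / η * 3 * x := mul_le_mul_of_nonneg_left h3 (by positivity)
      _ = 6 / η * x := by ring
  have hP3 : μ'.real B3 ≤ (72 * K / η ^ 2) / b ^ 3 := by
    have h1 := hKol μ' a (t - d) w (fun i : Fin w => X (i + 1))
      (fun i : Fin w => Ninc I' J' W' n (m - 1 - i)) (x / 3) (by positivity) hKfam
    refine h1.trans ?_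
    have h2 := vari_le hη0 ha1.le hηa
    have h3 := vari_le hη0 hal1.le hηal
    have h4 : x ^ 2 = C ^ 2 * b ^ 4 * N ^ 2 := by rw [hx]; ring
    have h5 : (w : ℝ) * (vari a + vari (t - d)) ≤ (K * b * N ^ 2) * (8 / η ^ 2) := by
      have h6 : vari a + vari (t - d) ≤ 8 / η ^ 2 := by
        have : (8 : ℝ) / η ^ 2 = 4 / η ^ 2 + 4 / η ^ 2 := by ring
        linarith
      calc (w : ℝ) * (vari a + vari (t - d)) ≤ w * (8 / η ^ 2) :=
            mul_le_mul_of_nonneg_left h6 (Nat.cast_nonneg _)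
        _ ≤ _ := mul_le_mul_of_nonneg_right hw' (by positivity)
    calc (w : ℝ) * (vari a + vari (t - d)) / (x / 3) ^ 2 ≤
          (K * b * N ^ 2) * (8 / η ^ 2) / (x / 3) ^ 2 :=
          div_le_div_of_nonneg_right h5 (by positivity)
      _ = (72 * K / η ^ 2) / b ^ 3 * (1 / C ^ 2) := by
          rw [div_pow, h4]
          field_simp
          norm_num
      _ ≤ (72 * K / η ^ 2) / b ^ 3 * 1 := by
          refine mul_le_mul_of_nonneg_left ?_ (by positivity)
          rw [div_le_one (by positivity)]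
          exact one_le_pow₀ hC1
      _ = _ := mul_one _
  calc μ'.real {ω | (T (rot m n (fun i j => W' i j ω)) m n : ℝ) + x ≤
      G (cut (fun i => X i ω) w) zero (rot m n (fun i j => W' i j ω)) m n}
      ≤ μ'.real (B1 ∪ (B2 ∪ B3)) := measureReal_mono hsub
    _ ≤ μ'.real B1 + (μ'.real B2 + μ'.real B3) :=
        (measureReal_union_le _ _).trans (by
          have := measureReal_union_le (μ := μ') B2 B3
          linarith)
    _ ≤ CS / b ^ 3 + ((6 / η) / b ^ 3 + (72 * K / η ^ 2) / b ^ 3) := by linarith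
    _ = (CS + 6 / η + 72 * K / η ^ 2) / b ^ 3 := by ring
    _ ≤ C / b ^ 3 := by
        refine div_le_div_of_nonneg_right ?_ (by positivity)
        rw [hC]
        linarith

/-! ### the theorem -/

theorem pGT (hPExit : PExit) (hSW : PSW) (hBurke : PBurke) (hKol : PKol) (hMom : PMom)
    (hPT : PTransfer) (hASys : ASys) (hAOps : AOps) (hA : AMeas) (hCut : DCut) (hSlope : DSlope)
    (hExit : DExit) (hRot : DRot) (hSand : DSand) (hTransp : DTransp) : PGT := by
  intro q hq0 hq1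
  obtain ⟨CE, hCE, hPExit⟩ := hPExit q hq0 hq1
  set K : ℝ := 24 * CE + 24 with hK
  have hK1 : 1 ≤ K := by rw [hK]; linarith
  obtain ⟨CL, hCL, hL⟩ := oneSided hPT hASys hAOps hA hExit hRot hSand hBurke hSW hKol hMom q hq0
    hq1 K hK1
  have hdd := dd_pos hq0 hq1
  set C : ℝ := 2 * CL + 2 * CE + 1 / dd q + 32 * CE + 10 with hC
  have p1 : 0 < 1 / dd q := by positivity
  have hC1 : 1 ≤ C := by rw [hC]; linarith
  refine ⟨C, hC1, ?_⟩
  intro Ω _ μ a b I J W m n hb hCb hn hnm hmn ha hmn' hsys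
  haveI : IsProbabilityMeasure μ := hsys.prob
  set t := Real.sqrt q with ht
  set N : ℝ := (n : ℝ) ^ (1 / 3 : ℝ) with hN
  have hn0 : (0 : ℝ) < n := by exact_mod_cast hn
  have hN0 : 0 < N := Real.rpow_pos_of_pos hn0 _
  have hN3 : N ^ 3 = n := by
    rw [hN, ← Real.rpow_natCast, ← Real.rpow_mul hn0.le]
    norm_num
  have hN2 : (n : ℝ) ^ (2 / 3 : ℝ) = N ^ 2 := by
    rw [hN, ← Real.rpow_natCast, ← Real.rpow_mul hn0.le]
    norm_num
  have hm : 1 ≤ m := by omega
  have hm0 : (0 : ℝ) < m := by exact_mod_cast hm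
  set M : ℝ := (m : ℝ) ^ (1 / 3 : ℝ) with hM
  have hM0 : 0 < M := Real.rpow_pos_of_pos hm0 _
  have hM3 : M ^ 3 = m := by
    rw [hM, ← Real.rpow_natCast, ← Real.rpow_mul hm0.le]
    norm_num
  have hM2 : (m : ℝ) ^ (2 / 3 : ℝ) = M ^ 2 := by
    rw [hM, ← Real.rpow_natCast, ← Real.rpow_mul hm0.le]
    norm_num
  have hNM : N ≤ 2 * M := by
    have h1 : N ^ 3 ≤ (2 * M) ^ 3 := by
      have : (n : ℝ) ≤ 2 * m := by exact_mod_cast hnm
      rw [hN3, mul_pow, hM3]
      linarith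
    exact le_of_pow_le_pow_left₀ (by norm_num) (by positivity) h1
  have hMN : M ≤ 2 * N := by
    have h1 : M ^ 3 ≤ (2 * N) ^ 3 := by
      have : (m : ℝ) ≤ 2 * n := by exact_mod_cast hmn
      rw [hM3, mul_pow, hN3]
      linarith
    exact le_of_pow_le_pow_left₀ (by norm_num) (by positivity) h1
  rw [hN2] at hmn'
  have hb0 : 0 < b := by linarith
  have hbN : b ≤ N := by
    have : b ≤ C * b := by nlinarith
    linarith
  have haN : |a - t| ≤ dd q := by
    have h1 : |a - t| ≤ b / N := by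
      rw [le_div_iff₀ hN0]; exact ha
    have h2 : b / N ≤ dd q := by
      rw [div_le_iff₀ hN0]
      have h3 : 1 / dd q * b ≤ C * b := mul_le_mul_of_nonneg_right (by rw [hC]; linarith) hb0.le
      have h4 : 1 / dd q * b ≤ N := h3.trans hCb
      have h5 : dd q * (1 / dd q * b) ≤ dd q * N := mul_le_mul_of_nonneg_left h4 hdd.le
      have h6 : dd q * (1 / dd q * b) = b := by field_simp
      linarith
    exact h1.trans h2
  obtain ⟨hqa, ha1, hηa, hta, ht0, ht1⟩ := params hq0 hq1 haN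
  -- the cut
  set w : ℕ := ⌈3 * CE * b * N ^ 2⌉₊ with hw
  have hw1 : 3 * CE * b * N ^ 2 ≤ w := Nat.le_ceil _
  have hw2 : (w : ℝ) < 3 * CE * b * N ^ 2 + 1 := Nat.ceil_lt_add_one (by positivity)
  have hN1 : 1 ≤ N := by linarith
  have hbN2 : 1 ≤ b * N ^ 2 := by nlinarith [one_le_pow₀ hN1 (n := 2)]
  have hCEb : 1 ≤ 3 * CE * b * N ^ 2 := by nlinarith
  have hwpos : 1 ≤ w := by
    have : (1 : ℝ) ≤ w := by linarith
    exact_mod_cast this
  have hw3 : (w : ℝ) ≤ 6 * CE * b * N ^ 2 := by linarith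
  have hwn : (w : ℝ) < n / 2 := by
    have h1 : (32 * CE) * b ≤ N := by
      refine le_trans ?_ hCb
      exact mul_le_mul_of_nonneg_right (by rw [hC]; linarith) hb0.le
    have h2 := mul_le_mul_of_nonneg_right h1 (by positivity : 0 ≤ N ^ 2)
    have h3 : N * N ^ 2 = n := by rw [← hN3]; ring
    rw [h3] at h2
    have h4 : 0 < CE * b * N ^ 2 := by positivity
    linarith
  have hwm : w < m := by
    have : (n : ℝ) ≤ 2 * m := by exact_mod_cast hnm
    have h1 : (w : ℝ) < m := by linarith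
    exact_mod_cast h1
  have hwn' : w < n := by
    have h1 : (w : ℝ) < n := by linarith
    exact_mod_cast h1
  have hcond : CE * ((n : ℝ) ^ (2 / 3 : ℝ) + |(m : ℝ) - n| + n * |a - t|) ≤ (w : ℝ) + 1 := by
    rw [hN2]
    have h1 : (n : ℝ) * |a - t| ≤ b * N ^ 2 := by
      rw [← hN3]
      have := mul_le_mul_of_nonneg_right ha (by positivity : 0 ≤ N ^ 2)
      calc N ^ 3 * |a - t| = |a - t| * N * N ^ 2 := by ring
        _ ≤ b * N ^ 2 := this
    have h2 : N ^ 2 ≤ b * N ^ 2 := by nlinarith [sq_nonneg N]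
    have h3 : CE * (N ^ 2 + |(m : ℝ) - n| + n * |a - t|) ≤ CE * (3 * (b * N ^ 2)) :=
      mul_le_mul_of_nonneg_left (by linarith) (by linarith)
    linarith
  obtain ⟨hH, hV⟩ := hPExit μ a I J W haN hsys m n w hn hnm hmn hcond
  have hH := hH hwm
  have hV := hV hwn'
  have hbound : CE * (n : ℝ) ^ 2 / ((w : ℝ) + 1) ^ 3 ≤ CE / b ^ 3 := by
    rw [div_le_div_iff₀ (by positivity) (by positivity), mul_assoc]
    refine mul_le_mul_of_nonneg_left ?_ (by linarith)
    have h1 : b * N ^ 2 ≤ (w : ℝ) + 1 := by nlinarith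
    calc (n : ℝ) ^ 2 * b ^ 3 = (b * N ^ 2) ^ 3 := by rw [← hN3]; ring
      _ ≤ ((w : ℝ) + 1) ^ 3 := pow_le_pow_left₀ (by positivity) h1 3
  -- the two one-sided bounds
  have hL1 : μ.real {ω | (Tr W m n ω : ℝ) + CL * b ^ 2 * N ≤
      G (cut (fun i => I i ω) w) zero (fun i j => W i j ω) m n} ≤ CL / b ^ 3 := by
    refine hL μ a b I J W m n w hb ?_ hn hnm hmn ?_ ?_ hwpos ?_ hsys
    · refine le_trans ?_ hCb
      exact mul_le_mul_of_nonneg_right (by rw [hC]; linarith) hb0.le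
    · have : b ≤ K * b := by nlinarith
      exact ha.trans this
    · rw [hN2]
      have : b * N ^ 2 ≤ K * b * N ^ 2 := by
        rw [mul_assoc]
        nlinarith [mul_pos hb0 (pow_pos hN0 2)]
      linarith
    · rw [hN2]
      refine hw3.trans ?_
      have h1 : 0 < b * N ^ 2 := by positivity
      rw [hK]
      nlinarith
  have hL2 : μ.real {ω | (Tr (fun i j => W j i) n m ω : ℝ) + CL * b ^ 2 * M ≤
      G (cut (fun j => J j ω) w) zero (fun i j => W j i ω) n m} ≤ CL / b ^ 3 := by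
    have hsys2 := (hAOps μ q).2.1 a I J W hq0 hqa ha1 hsys
    refine hL μ (q / a) b J I (fun i j => W j i) n m w hb ?_ hm hmn hnm ?_ ?_ hwpos ?_ hsys2
    · have h1 : 2 * CL * b ≤ C * b := mul_le_mul_of_nonneg_right (by rw [hC]; linarith) hb0.le
      have h2 : 2 * (CL * b) ≤ 2 * M := by linarith
      linarith
    · have ha0 : 0 < a := by linarith
      have hqt : q = t * t := (Real.mul_self_sqrt hq0.le).symm
      have e : q / a - t = t / a * (t - a) := by
        rw [hqt]; field_simp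
      have h1 : |q / a - t| ≤ 2 * |a - t| := by
        rw [e, abs_mul, abs_of_pos (by positivity : 0 < t / a), abs_sub_comm t a]
        refine mul_le_mul_of_nonneg_right ?_ (abs_nonneg _)
        rw [div_le_iff₀ ha0]
        linarith
      calc |q / a - t| * M ≤ (2 * |a - t|) * (2 * N) :=
            mul_le_mul h1 hMN hM0.le (by positivity)
        _ = 4 * (|a - t| * N) := by ring
        _ ≤ 4 * b := by linarith
        _ ≤ K * b := by rw [hK]; nlinarith
    · rw [hM2, abs_sub_comm]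
      refine hmn'.trans ?_
      have h1 : N ^ 2 ≤ (2 * M) ^ 2 := pow_le_pow_left₀ hN0.le hNM 2
      have h2 : b * N ^ 2 ≤ b * (2 * M) ^ 2 := mul_le_mul_of_nonneg_left h1 hb0.le
      refine h2.trans ?_
      have h3 : 0 < b * M ^ 2 := by positivity
      rw [hK]
      nlinarith
    · rw [hM2]
      refine hw3.trans ?_
      have h1 : N ^ 2 ≤ (2 * M) ^ 2 := pow_le_pow_left₀ hN0.le hNM 2
      have h2 : 6 * CE * b * N ^ 2 ≤ 6 * CE * b * (2 * M) ^ 2 :=
        mul_le_mul_of_nonneg_left h1 (by positivity)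
      refine h2.trans ?_
      have h3 : 0 < b * M ^ 2 := by positivity
      rw [hK]
      nlinarith
  -- combination
  have hD : ∀ ω, ω ∉ Hs I J W w m n → ω ∉ Vs I J W w m n → Gr I J W m n ω ≤
      max (G (cut (fun i => I i ω) w) zero (fun i j => W i j ω) m n)
        (G zero (cut (fun j => J j ω) w) (fun i j => W i j ω) m n) := by
    intro ω h1 h2
    refine hCut (fun i => I i ω) (fun j => J j ω) (fun i j => W i j ω) w m n ?_ ?_
    · have h3 := (hSlope (fun i => I i ω) (fun j => J j ω) (fun i j => W i j ω) w m n).1 1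
      have h4 : G (bump (fun i => I i ω) w 1) (fun j => J j ω) (fun i j => W i j ω) m n ≠
          G (fun i => I i ω) (fun j => J j ω) (fun i j => W i j ω) m n + 1 := h1
      omega
    · have h3 := (hSlope (fun j => J j ω) (fun i => I i ω) (fun j i => W i j ω) w n m).1 1
      have h4 : G (fun i => I i ω) (bump (fun j => J j ω) w 1) (fun i j => W i j ω) m n ≠
          G (fun i => I i ω) (fun j => J j ω) (fun i j => W i j ω) m n + 1 := h2
      have h5 := hTransp (fun i => I i ω) (bump (fun j => J j ω) w 1) (fun i j => W i j ω) m n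
      have h6 := hTransp (fun i => I i ω) (fun j => J j ω) (fun i j => W i j ω) m n
      rw [h5, h6] at h4
      rw [h5, h6]
      omega
  have hsub : {ω | (Tr W m n ω : ℝ) + C * b ^ 2 * N ≤ Gr I J W m n ω} ⊆
      (Hs I J W w m n ∪ Vs I J W w m n) ∪ ({ω | (Tr W m n ω : ℝ) + CL * b ^ 2 * N ≤
      G (cut (fun i => I i ω) w) zero (fun i j => W i j ω) m n} ∪
      {ω | (Tr (fun i j => W j i) n m ω : ℝ) + CL * b ^ 2 * M ≤
      G (cut (fun j => J j ω) w) zero (fun i j => W j i ω) n m}) := by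
    intro ω hω
    rw [Set.mem_ofPred_eq] at hω
    by_cases h1 : ω ∈ Hs I J W w m n
    · exact Or.inl (Or.inl h1)
    by_cases h2 : ω ∈ Vs I J W w m n
    · exact Or.inl (Or.inr h2)
    right
    have h3 := hD ω h1 h2
    have hb2N : 0 < b ^ 2 * N := by positivity
    rcases le_max_iff.1 h3 with h4 | h4
    · left
      rw [Set.mem_ofPred_eq]
      have h5 : ((Gr I J W m n ω : ℕ) : ℝ) ≤
          ((G (cut (fun i => I i ω) w) zero (fun i j => W i j ω) m n : ℕ) : ℝ) := by
        exact_mod_cast h4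
      have h6 : CL * b ^ 2 * N ≤ C * b ^ 2 * N := by
        have : CL * (b ^ 2 * N) ≤ C * (b ^ 2 * N) :=
          mul_le_mul_of_nonneg_right (by rw [hC]; linarith) hb2N.le
        linarith
      linarith
    · right
      rw [Set.mem_ofPred_eq]
      have h7 := hTransp zero (cut (fun j => J j ω) w) (fun i j => W i j ω) m n
      have h8 : T (fun i j => W i j ω) m n = T (fun i j => W j i ω) n m :=
        hTransp zero zero (fun i j => W i j ω) m n
      rw [h7] at h4
      have h5 : ((Gr I J W m n ω : ℕ) : ℝ) ≤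
          ((G (cut (fun j => J j ω) w) zero (fun i j => W j i ω) n m : ℕ) : ℝ) := by
        exact_mod_cast h4
      have h9 : (Tr W m n ω : ℝ) = (Tr (fun i j => W j i) n m ω : ℝ) := by
        unfold Tr
        rw [h8]
      have h6 : CL * b ^ 2 * M ≤ C * b ^ 2 * N := by
        have e1 : CL * b ^ 2 * M ≤ CL * b ^ 2 * (2 * N) :=
          mul_le_mul_of_nonneg_left hMN (by positivity)
        have e2 : (2 * CL) * (b ^ 2 * N) ≤ C * (b ^ 2 * N) :=
          mul_le_mul_of_nonneg_right (by rw [hC]; linarith) hb2N.le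
        linarith
      linarith
  have hb3 : 0 < b ^ 3 := by positivity
  calc μ.real {ω | (Tr W m n ω : ℝ) + C * b ^ 2 * N ≤ Gr I J W m n ω}
      ≤ _ := measureReal_mono hsub
    _ ≤ _ := measureReal_union_le _ _
    _ ≤ (μ.real (Hs I J W w m n) + μ.real (Vs I J W w m n)) + (CL / b ^ 3 + CL / b ^ 3) := by
        refine add_le_add (measureReal_union_le _ _) ?_
        exact (measureReal_union_le _ _).trans (add_le_add hL1 hL2)
    _ ≤ (CE / b ^ 3 + CE / b ^ 3) + (CL / b ^ 3 + CL / b ^ 3) := by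
        have := hH.trans hbound
        have := hV.trans hbound
        linarith
    _ = (2 * CE + 2 * CL) / b ^ 3 := by ring
    _ ≤ C / b ^ 3 := by
        refine div_le_div_of_nonneg_right ?_ hb3.le
        rw [hC]
        linarith

end Pool.Agent.W56.LP.GT
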